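import Mathlib
import Pool.Agent.Q281.Chrom.Sym

set_option autoImplicit false

/-!
# Partial-sum inequalities for the chromatic h-polynomial (MP_f4be1e_co)
-/

namespace Pool.Agent.Results.MP_f4be1e_co.PartialSums

open Finset

/-- The number `χ_G(n)` of proper colourings of `G` with `n` colours. -/
noncomputable def chi {V : Type} (G : SimpleGraph V) (n : ℕ) : ℕ :=
  Nat.card (G.Coloring (Fin n))

/-- The coefficient `h_i` of `h_G(z) = (1 - z)^(d + 1) * ∑ χ_G(n) z^n`, `d` the number of
vertices. -/
noncomputable def h {V : Type} [Fintype V] (G : SimpleGraph V) (i : ℕ) : ℤ :=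
  PowerSeries.coeff i (PowerSeries.mk (fun n => (chi G n : ℤ)) *
    (1 - PowerSeries.X) ^ (Fintype.card V + 1))

/-- For every finite simple graph on `d ≥ 1` vertices and every `i` with `0 ≤ i ≤ d` the sum of
the top `i` coefficients `h_d, ..., h_(d-i+1)` is at least `h_0 + ... + h_i`. -/
theorem result : ∀ (V : Type) [Fintype V] (G : SimpleGraph V), 1 ≤ Fintype.card V →
    ∀ i, i ≤ Fintype.card V →
      0 ≤ ∑ j ∈ range i, h G (Fintype.card V - j) - ∑ j ∈ range (i + 1), h G j := by
  classical
  intro V _ G hV i hi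
  have h1 : ∀ j, h G j = Q281.Chrom.hc G j := by
    intro j
    rw [h, Q281.Chrom.hc, Q281.Chrom.hs]
    simp only [chi, Q281.Chrom.card_coloring]
  have h2 := Q281.Chrom.SS_nonneg hV G i hi
  rw [Q281.Chrom.SS] at h2
  simp only [h1]
  exact h2

end Pool.Agent.Results.MP_f4be1e_co.PartialSums
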